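import Pool.Agent.Helper63.P705.NR.Goals

/-!
# MP_705522_gt, `θ ∈ [0.49,1/2)`: Fourier representations of `f0, f1, f2` (goal `GF`)
-/

namespace Pool.Agent.Helper56.NR

open MeasureTheory Set Filter Topology
open Pool.Agent.Helper53.PT
open Pool.Agent.Helper63.P705.NR

lemma zf_tendsto {θ : ℝ} (h0 : 0 < θ) (hk : 0 < kap θ) : Tendsto (zf θ) atTop (𝓝 0) := by
  have h1 : Tendsto (fun y : ℝ => y ^ (1 / θ)) atTop atTop := tendsto_rpow_atTop (by positivity)
  have h2 : Tendsto (fun y : ℝ => kap θ * θ * y ^ (1 / θ)) atTop atTop :=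
    h1.const_mul_atTop (by positivity)
  have h3 : Tendsto (fun y : ℝ => Real.exp (-(kap θ * θ * y ^ (1 / θ)))) atTop (𝓝 0) :=
    Real.tendsto_exp_neg_atTop_nhds_zero.comp h2
  have h4 := h3.const_mul (1 / sg θ)
  rw [mul_zero] at h4
  exact h4

lemma cos_sqrt_sq (u y : ℝ) : Real.cos (√(u ^ 2) * y) = Real.cos (u * y) := by
  rw [Real.sqrt_sq_eq_abs]
  rcases abs_choice u with h | h
  · rw [h]
  · rw [h, neg_mul, Real.cos_neg]

lemma sinc_sqrt_sq (u y : ℝ) : Real.sinc (√(u ^ 2) * y) = Real.sinc (u * y) := by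
  rw [Real.sqrt_sq_eq_abs]
  rcases abs_choice u with h | h
  · rw [h]
  · rw [h, neg_mul, Real.sinc_neg]

theorem gF : GF := by
  intro hGD hGM θ h0 h1
  obtain ⟨hk, hs, hzc, hzb, hzd, hfd, hint, hlaw⟩ := hGD θ h0 h1
  obtain ⟨hz1, hz2, hz3, -, -, -, -, -⟩ := hGM hGD θ h0 h1
  obtain ⟨hP, hpos, hmom, -, -, hrep, -⟩ := aLAW h0 h1
  -- integrability
  have iz : IntegrableOn (zf θ) (Ioi 0) := by
    have h := hint 0 (by norm_num)
    refine h.congr_fun (fun y hy => ?_) measurableSet_Ioi
    simp
  have iyz : IntegrableOn (fun y => y * zf θ y) (Ioi 0) := by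
    have h := hint 1 (by norm_num)
    refine h.congr_fun (fun y hy => ?_) measurableSet_Ioi
    simp
  have iyf : IntegrableOn (fun y => y * ff θ y) (Ioi 0) := by
    have h := (hlaw (fun y => y)).1.1 (by simpa using hmom 1)
    refine h.congr_fun (fun y hy => ?_) measurableSet_Ioi
    simp only [mul_comm]
  have cc : ∀ u : ℝ, Continuous (fun y : ℝ => Real.cos (u * y)) := fun u => by fun_prop
  have cs : ∀ u : ℝ, Continuous (fun y : ℝ => Real.sin (u * y)) := fun u => by fun_prop
  have izc : ∀ u : ℝ, IntegrableOn (fun y => zf θ y * Real.cos (u * y)) (Ioi 0) := by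
    intro u
    refine Integrable.mul_bdd (c := 1) iz (cc u).aestronglyMeasurable ?_
    exact Eventually.of_forall fun y => by
      rw [Real.norm_eq_abs]; exact Real.abs_cos_le_one _
  have iyfs : ∀ u : ℝ, IntegrableOn (fun y => y * ff θ y * Real.sin (u * y)) (Ioi 0) := by
    intro u
    refine Integrable.mul_bdd (c := 1) iyf (cs u).aestronglyMeasurable ?_
    exact Eventually.of_forall fun y => by
      rw [Real.norm_eq_abs]; exact Real.abs_sin_le_one _
  have e1 : ∀ u : ℝ, f0 θ (u ^ 2) = ∫ y in Ioi (0 : ℝ), ff θ y * Real.cos (u * y) := by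
    intro u
    rw [(hrep (u ^ 2) (sq_nonneg u)).1, ← (hlaw (fun y => Real.cos (u * y))).2]
    refine integral_congr_ae (Eventually.of_forall fun y => ?_)
    exact cos_sqrt_sq u y
  have e3 : ∀ u : ℝ, u * f1 θ (u ^ 2) = ∫ y in Ioi (0 : ℝ), y * ff θ y * Real.sin (u * y) := by
    intro u
    rw [(hrep (u ^ 2) (sq_nonneg u)).2.1]
    have a1 : ∫ y, y ^ 2 * Real.sinc (√(u ^ 2) * y) ∂(nu θ) =
        ∫ y, y ^ 2 * Real.sinc (u * y) ∂(nu θ) :=
      integral_congr_ae (Eventually.of_forall fun y => by
        show y ^ 2 * Real.sinc (√(u ^ 2) * y) = y ^ 2 * Real.sinc (u * y)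
        rw [sinc_sqrt_sq])
    rw [a1, (hlaw (fun y => y ^ 2 * Real.sinc (u * y))).2, ← integral_const_mul]
    refine setIntegral_congr_fun measurableSet_Ioi (fun y hy => ?_)
    have hy' : (0 : ℝ) < y := hy
    show u * (ff θ y * (y ^ 2 * Real.sinc (u * y))) = y * ff θ y * Real.sin (u * y)
    by_cases hu : u = 0
    · subst hu; simp
    · have huy : u * y ≠ 0 := mul_ne_zero hu hy'.ne'
      rw [Real.sinc_of_ne_zero huy]
      field_simp
  have e2 : ∀ u : ℝ, f1 θ (u ^ 2) = ∫ y in Ioi (0 : ℝ), zf θ y * Real.cos (u * y) := by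
    intro u
    by_cases hu : u = 0
    · subst hu
      have : (fun y : ℝ => zf θ y * Real.cos (0 * y)) = zf θ := by
        funext y; simp
      rw [this, hz1]
      have := f1_zero h0 h1
      simpa using this
    · have hd : ∀ y ∈ Ioi (0 : ℝ), HasDerivAt (fun y => zf θ y * (Real.sin (u * y) / u))
          (-(y * ff θ y) * (Real.sin (u * y) / u) + zf θ y * Real.cos (u * y)) y := by
        intro y hy
        have d1 := hzd y hy
        have d2 : HasDerivAt (fun y : ℝ => Real.sin (u * y) / u) (Real.cos (u * y)) y := by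
          have d3 : HasDerivAt (fun y : ℝ => u * y) u y := by
            simpa using (hasDerivAt_id y).const_mul u
          have d4 := (d3.sin).div_const u
          refine d4.congr_deriv ?_
          field_simp
        exact d1.mul d2
      have hI : IntegrableOn (fun y => -(y * ff θ y) * (Real.sin (u * y) / u) +
          zf θ y * Real.cos (u * y)) (Ioi 0) := by
        have hA : IntegrableOn (fun y => -(y * ff θ y) * (Real.sin (u * y) / u)) (Ioi 0) := by
          have hB : IntegrableOn (fun y => y * ff θ y * Real.sin (u * y) * (-(1 / u))) (Ioi 0) :=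
            (iyfs u).mul_const (-(1 / u))
          refine hB.congr_fun (fun y hy => ?_) measurableSet_Ioi
          show y * ff θ y * Real.sin (u * y) * (-(1 / u)) = -(y * ff θ y) * (Real.sin (u * y) / u)
          ring
        exact hA.add (izc u)
      have hc0 : ContinuousWithinAt (fun y => zf θ y * (Real.sin (u * y) / u)) (Ici 0) 0 := by
        apply Continuous.continuousWithinAt
        fun_prop
      have ht : Tendsto (fun y => zf θ y * (Real.sin (u * y) / u)) atTop (𝓝 0) := by
        have hz := zf_tendsto h0 hk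
        refine Tendsto.zero_mul_isBoundedUnder_le hz ?_
        refine isBoundedUnder_of ⟨1 / |u|, fun y => ?_⟩
        show ‖Real.sin (u * y) / u‖ ≤ 1 / |u|
        rw [Real.norm_eq_abs, abs_div]
        gcongr
        exact Real.abs_sin_le_one _
      have hmain := integral_Ioi_of_hasDerivAt_of_tendsto hc0 hd hI ht
      have hA : ∫ y in Ioi (0 : ℝ), (-(y * ff θ y) * (Real.sin (u * y) / u) +
          zf θ y * Real.cos (u * y)) = -(1 / u) * (∫ y in Ioi (0 : ℝ), y * ff θ y * Real.sin (u * y)) +
          ∫ y in Ioi (0 : ℝ), zf θ y * Real.cos (u * y) := by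
        rw [← integral_const_mul, ← integral_add ((iyfs u).const_mul _) (izc u)]
        refine setIntegral_congr_fun measurableSet_Ioi (fun y hy => ?_)
        show -(y * ff θ y) * (Real.sin (u * y) / u) + zf θ y * Real.cos (u * y) =
          -(1 / u) * (y * ff θ y * Real.sin (u * y)) + zf θ y * Real.cos (u * y)
        ring
      rw [hA, ← e3 u] at hmain
      have h9 : -(1 / u) * (u * f1 θ (u ^ 2)) = -f1 θ (u ^ 2) := by field_simp
      rw [h9] at hmain
      simp only [mul_zero, Real.sin_zero, zero_div, sub_zero] at hmain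
      linarith
  refine fun u => ⟨e1 u, e2 u, e3 u, ?_⟩
  -- derivative in `u`
  have d1 : HasDerivAt (fun v : ℝ => f1 θ (v ^ 2)) (f2 θ (u ^ 2) * (2 * u)) u := by
    have a := hasDerivAt_f1 h0 h1 (u ^ 2)
    have b : HasDerivAt (fun v : ℝ => v ^ 2) (2 * u) u := by
      simpa using hasDerivAt_pow 2 u
    exact HasDerivAt.comp (h₂ := f1 θ) (h := fun v : ℝ => v ^ 2) u a b
  have d2 : HasDerivAt (fun v : ℝ => ∫ y in Ioi (0 : ℝ), zf θ y * Real.cos (v * y))
      (∫ y in Ioi (0 : ℝ), -(y * zf θ y * Real.sin (u * y))) u := by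
    refine (hasDerivAt_integral_of_dominated_loc_of_deriv_le (μ := volume.restrict (Ioi 0))
      (bound := fun y => y * zf θ y)
      (F := fun v y => zf θ y * Real.cos (v * y))
      (F' := fun v y => -(y * zf θ y * Real.sin (v * y))) (x₀ := u)
      (s := univ) univ_mem ?_ (izc u) ?_ ?_ iyz ?_).2
    · exact Eventually.of_forall fun v => (izc v).aestronglyMeasurable
    · refine Continuous.aestronglyMeasurable ?_
      fun_prop
    · refine (ae_restrict_mem measurableSet_Ioi).mono fun y hy v _ => ?_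
      have hy' : (0 : ℝ) < y := hy
      have hz := (hzb y hy'.le).1
      show ‖-(y * zf θ y * Real.sin (v * y))‖ ≤ y * zf θ y
      rw [norm_neg, Real.norm_eq_abs, abs_mul, abs_of_pos (mul_pos hy' hz)]
      exact mul_le_of_le_one_right (mul_pos hy' hz).le (Real.abs_sin_le_one _)
    · refine Eventually.of_forall fun y v _ => ?_
      have d3 : HasDerivAt (fun v : ℝ => v * y) y v := by
        simpa using (hasDerivAt_id v).mul_const y
      have d4 := (d3.cos).const_mul (zf θ y)
      refine d4.congr_deriv ?_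
      ring
  have d3 : HasDerivAt (fun v : ℝ => f1 θ (v ^ 2))
      (∫ y in Ioi (0 : ℝ), -(y * zf θ y * Real.sin (u * y))) u := by
    have : (fun v : ℝ => f1 θ (v ^ 2)) = fun v : ℝ => ∫ y in Ioi (0 : ℝ), zf θ y * Real.cos (v * y) :=
      funext e2
    rw [this]; exact d2
  have d4 := d1.unique d3
  rw [integral_neg] at d4
  rw [← d4]; ring

end Pool.Agent.Helper56.NR
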